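import Pool.Agent.P8H34.Defs

/-!
# Definitions: varieties whose numerical divisor classes decompose, for instance products
-/

set_option autoImplicit false

open FF Pool.Agent.W602.GT Pool.Agent.Y172 Pool.Agent.R887
open Pool.Agent.N110 Pool.Agent.N110.CC

namespace Pool.Agent.P8H27.CP

/-- The `i`-th component of the class `x` in `ℝ ^ ρ' = ⊕ ℝ ^ (ρ i)`; the bijection `e` numbers the
coordinates. -/
def comp {r ρ' : ℕ} {ρ : Fin r → ℕ} (e : (Σ i, Fin (ρ i)) ≃ Fin ρ') (i : Fin r)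
    (x : Fin ρ' → ℝ) : Fin (ρ i) → ℝ := fun a => x (e ⟨i, a⟩)

/-- The variety `X'` (with generic point `y'`) decomposes into the varieties `X_i` of dimension `n i`
(with generic points `y i`): there are rational maps `X' → X_i`, given by the inclusions `ι i` of the
function fields, with the following properties.

* `aut`: every automorphism `ψ` of `X_i` is induced by an automorphism of `X'` over all the `X_j`,
  `j ≠ i`.
* `pull`: for every prime divisor `P` of `X_i` there is exactly one prime divisor `Q` of `X'` which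
  dominates it without ramification; its class in `N¹(X') = ⊕ N¹(X_i)` is the class of `P` in the
  `i`-th summand.
* `pull_nef`: a nef class on `X_i` is nef as a class on `X'`.
* `restrict_nef`, `restrict_eff`: the `i`-th component of a nef (effective) class on `X'` is a nef
  (effective) class on `X_i`.

This is the case if `X'` is the product of the normal projective varieties `X_i` and
`N¹(X') = ⊕ N¹(X_i)`: take `ψ × id`, the inverse image of `P`, the pull back of classes along the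
projections and the restriction of classes to a general fibre of `X' → ∏ X_j`, `j ≠ i`. -/
structure Decomposes {r : ℕ} {K : Fin r → Type} [∀ i, Field (K i)] [∀ i, Algebra ℂ (K i)]
    {K' : Type} [Field K'] [Algebra ℂ K'] {N ρ : Fin r → ℕ} {N' ρ' : ℕ}
    (y : ∀ i, Fin (N i + 1) → K i) (c : ∀ i, Place ℂ (K i) → Fin (ρ i) → ℤ) (n : Fin r → ℕ)
    (y' : Fin (N' + 1) → K') (c' : Place ℂ K' → Fin ρ' → ℤ) (n' : ℕ)
    (ι : ∀ i, K i →ₐ[ℂ] K') (e : (Σ i, Fin (ρ i)) ≃ Fin ρ') : Prop where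
  aut : ∀ i, ∀ ψ : K i ≃ₐ[ℂ] K i, IsAut ψ (y i) → ∃ ψ' : K' ≃ₐ[ℂ] K', IsAut ψ' y' ∧
    (∀ f, ψ' (ι i f) = ι i (ψ f)) ∧ ∀ j, j ≠ i → ∀ f, ψ' (ι j f) = ι j f
  pull : ∀ i, ∀ P : Place ℂ (K i), IsPrimeDivisor (y i) P → ∃ Q : Place ℂ K',
    (∀ Q', (IsPrimeDivisor y' Q' ∧ ∀ f, Q'.ord (ι i f) = P.ord f) ↔ Q' = Q) ∧
    (∀ a, c' Q (e ⟨i, a⟩) = c i P a) ∧ ∀ j, j ≠ i → ∀ a, c' Q (e ⟨j, a⟩) = 0
  pull_nef : ∀ i x, comp e i x ∈ nefCone (y i) (n i) (c i) → (∀ j, j ≠ i → comp e j x = 0) →
    x ∈ nefCone y' n' c'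
  restrict_nef : ∀ i x, x ∈ nefCone y' n' c' → comp e i x ∈ nefCone (y i) (n i) (c i)
  restrict_eff : ∀ i x, x ∈ effCone y' c' → comp e i x ∈ effCone (y i) (c i)

end Pool.Agent.P8H27.CP
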