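import Pool.Agent.P8H27.CP.Defs
import Pool.Agent.P8H34.Main

/-!
# The cone conjecture for varieties which decompose
-/

set_option autoImplicit false
set_option linter.overlappingInstances false
set_option linter.unusedSectionVars false

open FF Pool.Agent.W602.GT Pool.Agent.Y172 Pool.Agent.R887
open Pool.Agent.N110 Pool.Agent.N110.CC Pool.Agent.N492.PA Pool.Agent.N110.NV
open Pool.Agent.N165.KM (IntL Sandwich HasFD)
open Pool.Agent.Y167 (cone cone_image cone_ind zero_mem_cone mem_cone_self cone_add cone_smul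
  cone_mono cone_sum Cp)
open Pool.Agent.P8H34

namespace Pool.Agent.P8H27.CP

section

variable {r : ℕ} {K : Fin r → Type} [∀ i, Field (K i)] [∀ i, Algebra ℂ (K i)]
  {K' : Type} [Field K'] [Algebra ℂ K'] {N n ρ : Fin r → ℕ} {N' n' ρ' : ℕ}
  {y : ∀ i, Fin (N i + 1) → K i} {c : ∀ i, Place ℂ (K i) → Fin (ρ i) → ℤ}
  {y' : Fin (N' + 1) → K'} {c' : Place ℂ K' → Fin ρ' → ℤ}
  {ι : ∀ i, K i →ₐ[ℂ] K'} {e : (Σ i, Fin (ρ i)) ≃ Fin ρ'}

theorem comp_ext {x z : Fin ρ' → ℝ} (h : ∀ i, comp e i x = comp e i z) : x = z := by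
  funext j
  obtain ⟨⟨i, a⟩, rfl⟩ := e.surjective j
  exact congrFun (h i) a

/-- the inclusion of the `i`-th summand -/
noncomputable def emb (e : (Σ i, Fin (ρ i)) ≃ Fin ρ') (i : Fin r) :
    (Fin (ρ i) → ℝ) →ₗ[ℝ] (Fin ρ' → ℝ) where
  toFun x := fun j => if h : (e.symm j).1 = i then x (h ▸ (e.symm j).2) else 0
  map_add' x z := by
    funext j
    show (if h : (e.symm j).1 = i then (x + z) (h ▸ (e.symm j).2) else 0) =
      (if h : (e.symm j).1 = i then x (h ▸ (e.symm j).2) else 0) +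
      (if h : (e.symm j).1 = i then z (h ▸ (e.symm j).2) else 0)
    split_ifs
    · rfl
    · rw [add_zero]
  map_smul' t x := by
    funext j
    show (if h : (e.symm j).1 = i then (t • x) (h ▸ (e.symm j).2) else 0) =
      t * (if h : (e.symm j).1 = i then x (h ▸ (e.symm j).2) else 0)
    split_ifs
    · rfl
    · rw [mul_zero]

theorem comp_emb (i : Fin r) (x : Fin (ρ i) → ℝ) : comp e i (emb e i x) = x := by
  funext a
  show (if h : (e.symm (e ⟨i, a⟩)).1 = i then x (h ▸ (e.symm (e ⟨i, a⟩)).2) else 0) = x a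
  have h1 : e.symm (e ⟨i, a⟩) = ⟨i, a⟩ := e.symm_apply_apply _
  rw [h1]
  rw [dif_pos rfl]

theorem comp_emb_ne {i j : Fin r} (hij : j ≠ i) (x : Fin (ρ i) → ℝ) :
    comp e j (emb e i x) = 0 := by
  funext a
  show (if h : (e.symm (e ⟨j, a⟩)).1 = i then x (h ▸ (e.symm (e ⟨j, a⟩)).2) else 0) = 0
  have h1 : e.symm (e ⟨j, a⟩) = ⟨j, a⟩ := e.symm_apply_apply _
  rw [h1, dif_neg hij]

theorem comp_add (i : Fin r) (x z : Fin ρ' → ℝ) : comp e i (x + z) = comp e i x + comp e i z := rfl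

theorem comp_smul (i : Fin r) (t : ℝ) (x : Fin ρ' → ℝ) : comp e i (t • x) = t • comp e i x := rfl

theorem comp_sum {α : Type*} (s : Finset α) (i : Fin r) (x : α → Fin ρ' → ℝ) :
    comp e i (∑ a ∈ s, x a) = ∑ a ∈ s, comp e i (x a) := by
  funext b
  show (∑ a ∈ s, x a) (e ⟨i, b⟩) = (∑ a ∈ s, comp e i (x a)) b
  rw [Finset.sum_apply, Finset.sum_apply]
  rfl

theorem sum_emb (x : Fin ρ' → ℝ) : ∑ i, emb e i (comp e i x) = x := by
  refine comp_ext (e := e) fun j => ?_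
  rw [comp_sum, Finset.sum_eq_single j, comp_emb]
  · intro i _ hij
    exact comp_emb_ne (Ne.symm hij) _
  · intro h
    exact absurd (Finset.mem_univ j) h

theorem emb_int (i : Fin r) {x : Fin (ρ i) → ℝ} (hx : ∀ a, ∃ m : ℤ, x a = m) :
    emb e i x ∈ IntL ρ' := by
  intro j
  show ∃ m : ℤ, (if h : (e.symm j).1 = i then x (h ▸ (e.symm j).2) else 0) = m
  split_ifs with h
  · exact hx _
  · exact ⟨0, by norm_num⟩

/-- the prime divisor which dominates `P` -/
theorem class_pull (hdec : Decomposes y c n y' c' n' ι e) (i : Fin r) {P : Place ℂ (K i)}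
    (hP : IsPrimeDivisor (y i) P) : ∃ Q : Place ℂ K', IsPrimeDivisor y' Q ∧
      (∀ f, Q.ord (ι i f) = P.ord f) ∧
      (∀ Q', IsPrimeDivisor y' Q' → (∀ f, Q'.ord (ι i f) = P.ord f) → Q' = Q) ∧
      rcl c' Q = emb e i (rcl (c i) P) := by
  obtain ⟨Q, h1, h2, h3⟩ := hdec.pull i P hP
  refine ⟨Q, ((h1 Q).2 rfl).1, ((h1 Q).2 rfl).2, fun Q' a b => (h1 Q').1 ⟨a, b⟩, ?_⟩
  refine comp_ext (e := e) fun j => ?_
  by_cases hji : j = i
  · subst hji
    rw [comp_emb]
    funext a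
    show ((c' Q (e ⟨j, a⟩) : ℤ) : ℝ) = ((c j P a : ℤ) : ℝ)
    rw [h2]
  · rw [comp_emb_ne hji]
    funext a
    show ((c' Q (e ⟨j, a⟩) : ℤ) : ℝ) = 0
    rw [h3 j hji, Int.cast_zero]

/-- the pull back by an automorphism of the `i`-th factor -/
theorem pull_emb (hy : ∀ i, NormalModel (y i)) (hy' : NormalModel y')
    (hc : ∀ i, PicardBasis (y i) (c i)) (hdec : Decomposes y c n y' c' n' ι e) (i : Fin r)
    {ψ : K i ≃ₐ[ℂ] K i} (hψ : IsAut ψ (y i)) {T : (Fin (ρ i) → ℝ) ≃ₗ[ℝ] (Fin (ρ i) → ℝ)}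
    (hT : IsPullBack (y i) (c i) ψ T) {ψ' : K' ≃ₐ[ℂ] K'} (hψ' : IsAut ψ' y')
    {T' : (Fin ρ' → ℝ) ≃ₗ[ℝ] (Fin ρ' → ℝ)} (hT' : IsPullBack y' c' ψ' T')
    (h1 : ∀ f, ψ' (ι i f) = ι i (ψ f)) (h2 : ∀ j, j ≠ i → ∀ f, ψ' (ι j f) = ι j f) :
    (∀ x, T' (emb e i x) = emb e i (T x)) ∧ ∀ j, j ≠ i → ∀ x, T' (emb e j x) = emb e j x := by
  have hinv : ∀ f, ψ'⁻¹ (ι i f) = ι i (ψ⁻¹ f) := by
    intro f
    apply ψ'.injective
    have h3 : ψ' (ψ'⁻¹ (ι i f)) = ι i f := ψ'.apply_symm_apply _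
    have h4 : ψ (ψ⁻¹ f) = f := ψ.apply_symm_apply _
    rw [h3, h1, h4]
  have hinv2 : ∀ j, j ≠ i → ∀ f, ψ'⁻¹ (ι j f) = ι j f := by
    intro j hj f
    apply ψ'.injective
    have h3 : ψ' (ψ'⁻¹ (ι j f)) = ι j f := ψ'.apply_symm_apply _
    rw [h3, h2 j hj]
  -- prime divisors are mapped to prime divisors
  have hps : ∀ Q : Place ℂ K', IsPrimeDivisor y' Q → IsPrimeDivisor y' (comap ψ'⁻¹ Q) :=
    fun Q hQ => (psaut_iff.1 (isAut_ps hy' ((autGroup y').inv_mem hψ')) Q).2 hQ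
  have hps0 : ∀ P : Place ℂ (K i), IsPrimeDivisor (y i) P → IsPrimeDivisor (y i) (comap ψ⁻¹ P) :=
    fun P hP => (psaut_iff.1 (isAut_ps (hy i) ((autGroup (y i)).inv_mem hψ)) P).2 hP
  constructor
  · intro x
    have h3 := span_rcl (hc i) x
    induction h3 using Submodule.span_induction with
    | mem z hz =>
      obtain ⟨P, hP, rfl⟩ := hz
      obtain ⟨Q, hQ, hQ1, hQ2, hQ3⟩ := class_pull hdec i hP
      obtain ⟨R, hR, hR1, hR2, hR3⟩ := class_pull hdec i (hps0 P hP)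
      have h4 : comap ψ'⁻¹ Q = R := by
        refine hR2 _ (hps Q hQ) fun f => ?_
        rw [comap_ord, hinv, hQ1, comap_ord]
      have h5 : T' (rcl c' Q) = rcl c' (comap ψ'⁻¹ Q) :=
        hT' Q _ hQ (image_iff.2 (comap_comap_inv ψ' Q).symm)
      have h6 : T (rcl (c i) P) = rcl (c i) (comap ψ⁻¹ P) :=
        hT P _ hP (image_iff.2 (comap_comap_inv ψ P).symm)
      rw [← hQ3, h5, h4, hR3, h6]
    | zero => simp only [map_zero]
    | add a b _ _ ha hb => rw [map_add, map_add, map_add, map_add, ha, hb]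
    | smul t a _ ha => rw [map_smul, map_smul, map_smul, map_smul, ha]
  · intro j hj x
    have h3 := span_rcl (hc j) x
    induction h3 using Submodule.span_induction with
    | mem z hz =>
      obtain ⟨P, hP, rfl⟩ := hz
      obtain ⟨Q, hQ, hQ1, hQ2, hQ3⟩ := class_pull hdec j hP
      have h4 : comap ψ'⁻¹ Q = Q := by
        refine hQ2 _ (hps Q hQ) fun f => ?_
        rw [comap_ord, hinv2 j hj, hQ1]
      have h5 : T' (rcl c' Q) = rcl c' (comap ψ'⁻¹ Q) :=
        hT' Q _ hQ (image_iff.2 (comap_comap_inv ψ' Q).symm)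
      rw [← hQ3, h5, h4]
    | zero => simp only [map_zero]
    | add a b _ _ ha hb => rw [map_add, map_add, ha, hb]
    | smul t a _ ha => rw [map_smul, map_smul, ha]

theorem comp_pull (hy : ∀ i, NormalModel (y i)) (hy' : NormalModel y')
    (hc : ∀ i, PicardBasis (y i) (c i)) (hdec : Decomposes y c n y' c' n' ι e) (i : Fin r)
    {ψ : K i ≃ₐ[ℂ] K i} (hψ : IsAut ψ (y i)) {T : (Fin (ρ i) → ℝ) ≃ₗ[ℝ] (Fin (ρ i) → ℝ)}
    (hT : IsPullBack (y i) (c i) ψ T) {ψ' : K' ≃ₐ[ℂ] K'} (hψ' : IsAut ψ' y')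
    {T' : (Fin ρ' → ℝ) ≃ₗ[ℝ] (Fin ρ' → ℝ)} (hT' : IsPullBack y' c' ψ' T')
    (h1 : ∀ f, ψ' (ι i f) = ι i (ψ f)) (h2 : ∀ j, j ≠ i → ∀ f, ψ' (ι j f) = ι j f)
    (x : Fin ρ' → ℝ) :
    comp e i (T' x) = T (comp e i x) ∧ ∀ j, j ≠ i → comp e j (T' x) = comp e j x := by
  obtain ⟨h3, h4⟩ := pull_emb hy hy' hc hdec i hψ hT hψ' hT' h1 h2
  have h5 : T' x = emb e i (T (comp e i x)) + ∑ j ∈ Finset.univ.erase i, emb e j (comp e j x) := by
    conv_lhs => rw [← sum_emb (e := e) x, ← Finset.add_sum_erase _ _ (Finset.mem_univ i), map_add,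
      map_sum, h3]
    congr 1
    refine Finset.sum_congr rfl fun j hj => h4 j (Finset.ne_of_mem_erase hj) _
  constructor
  · rw [h5, comp_add, comp_emb, comp_sum, Finset.sum_eq_zero, add_zero]
    intro j hj
    exact comp_emb_ne (Finset.ne_of_mem_erase hj).symm _
  · intro j hj
    rw [h5, comp_add, comp_emb_ne hj, zero_add, comp_sum, Finset.sum_eq_single j, comp_emb]
    · intro k _ hk
      exact comp_emb_ne (Ne.symm hk) _
    · intro h
      exact absurd (Finset.mem_erase.2 ⟨hj, Finset.mem_univ j⟩) h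

/-- **The cone conjecture for a variety which decomposes.** -/
theorem product (hy : ∀ i, NormalModel (y i)) (hy' : NormalModel y')
    (hn' : Algebra.trdeg ℂ K' = n') (hn0 : 0 < n')
    (hc : ∀ i, PicardBasis (y i) (c i)) (hc' : PicardBasis y' c')
    (hint : (interior (nefCone y' n' c')).Nonempty)
    (hdec : Decomposes y c n y' c' n' ι e)
    (hfd : ∀ i, HasFundDomain {T | ∃ ψ, IsAut ψ (y i) ∧ IsPullBack (y i) (c i) ψ T}
      (nefCone (y i) (n i) (c i) ∩ effCone (y i) (c i))) :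
    HasFundDomain {T | ∃ ψ, IsAut ψ y' ∧ IsPullBack y' c' ψ T}
      (nefCone y' n' c' ∩ effCone y' c') := by
  classical
  obtain ⟨M, hM⟩ := exists_rep (𝒮 := autGroup y') hy' hc' fun φ hφ => isAut_ps hy' hφ
  have hsw := sandwich hy' hn' hn0 hc' hint
  -- the sums of classes
  have hsumN : ∀ x : Fin ρ' → ℝ, (∀ i, comp e i x ∈ nefCone (y i) (n i) (c i) ∩
      effCone (y i) (c i)) → x ∈ nefCone y' n' c' ∩ effCone y' c' := by
    intro x hx
    have h0 : (0 : Fin ρ' → ℝ) ∈ nefCone y' n' c' ∩ effCone y' c' := by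
      obtain ⟨z, hz⟩ := hint
      have := hsw.Nsmul 0 le_rfl _ (hsw.Nint hz)
      rwa [zero_smul] at this
    rw [← sum_emb (e := e) x]
    refine Finset.sum_induction _ (· ∈ nefCone y' n' c' ∩ effCone y' c')
      (fun a b ha hb => hsw.Nadd a ha b hb) h0 fun i _ => ⟨?_, ?_⟩
    · refine hdec.pull_nef i _ ?_ fun j hj => comp_emb_ne hj _
      rw [comp_emb]
      exact (hx i).1
    · refine coneOf_ind (p := fun z => emb e i z ∈ effCone y' c') (by rw [map_zero]; exact h0.2)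
        (fun a b ha hb => by rw [map_add]; exact coneOf_add ha hb)
        (fun t a ht ha => by rw [map_smul]; exact coneOf_smul ha ht) ?_ (hx i).2
      rintro _ ⟨P, hP, rfl⟩
      obtain ⟨Q, hQ, -, -, hQ3⟩ := class_pull hdec i hP
      rw [← hQ3]
      exact coneOf_self ⟨Q, hQ, rfl⟩
  -- the fundamental domains of the factors
  choose S hS hU hdis using hfd
  have hSN : ∀ i, ∀ a ∈ S i, a ∈ nefCone (y i) (n i) (c i) ∩ effCone (y i) (c i) := by
    intro i a ha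
    rw [hU]
    simp only [Set.mem_iUnion, Set.mem_image]
    exact ⟨1, ⟨1, (autGroup (y i)).one_mem, pull_one (y i) (c i)⟩, a, mem_cone_self ha, rfl⟩
  let F : Finset (Fin ρ' → ℝ) := Finset.univ.biUnion fun i => (S i).image (emb e i)
  have hF : ∀ a ∈ F, a ∈ IntL ρ' ∧ a ∈ nefCone y' n' c' ∩ effCone y' c' := by
    intro a ha
    obtain ⟨i, -, h1⟩ := Finset.mem_biUnion.1 ha
    obtain ⟨b, hb, rfl⟩ := Finset.mem_image.1 h1
    refine ⟨emb_int i (hS i b hb), ⟨?_, ?_⟩⟩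
    · refine hdec.pull_nef i _ ?_ fun j hj => comp_emb_ne hj _
      rw [comp_emb]
      exact (hSN i b hb).1
    · refine coneOf_ind (p := fun z => emb e i z ∈ effCone y' c') (by
        rw [map_zero]; exact coneOf_zero _)
        (fun a b ha hb => by rw [map_add]; exact coneOf_add ha hb)
        (fun t a ht ha => by rw [map_smul]; exact coneOf_smul ha ht) ?_ (hSN i b hb).2
      rintro _ ⟨P, hP, rfl⟩
      obtain ⟨Q, hQ, -, -, hQ3⟩ := class_pull hdec i hP
      rw [← hQ3]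
      exact coneOf_self ⟨Q, hQ, rfl⟩
  -- the covering
  have hcov : ∀ x ∈ nefCone y' n' c' ∩ effCone y' c', ∃ g : autGroup y', hM.TE g x ∈ cone F := by
    intro x hx
    have hxi : ∀ i, comp e i x ∈ nefCone (y i) (n i) (c i) ∩ effCone (y i) (c i) := fun i =>
      ⟨hdec.restrict_nef i x hx.1, hdec.restrict_eff i x hx.2⟩
    have key : ∀ s : Finset (Fin r), ∃ g : autGroup y',
        (∀ i ∈ s, comp e i (hM.TE g x) ∈ cone (S i)) ∧
        ∀ i, i ∉ s → comp e i (hM.TE g x) = comp e i x := by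
      intro s
      induction s using Finset.induction_on with
      | empty =>
        refine ⟨1, fun i hi => absurd hi (Finset.notMem_empty i), fun i _ => ?_⟩
        have h1 : hM.TE 1 = 1 := map_one (MonoidHom.mk' hM.TE hM.TE_mul)
        rw [h1]
        rfl
      | insert i s hi ih =>
        obtain ⟨g, hg1, hg2⟩ := ih
        have h1 := hxi i
        rw [hU] at h1
        simp only [Set.mem_iUnion, Set.mem_image] at h1
        obtain ⟨T, ⟨ψ, hψ, hT⟩, z, hz, hTz⟩ := h1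
        obtain ⟨ψ', hψ', h2, h3⟩ := hdec.aut i ψ hψ
        have h4 := hM.isPull (⟨ψ', hψ'⟩ : autGroup y')
        have h5 := comp_pull hy hy' hc hdec i hψ hT hψ' h4 h2 h3
          (hM.TE ((⟨ψ', hψ'⟩ : autGroup y')⁻¹ * g) x)
        have h6 : hM.TE (⟨ψ', hψ'⟩ : autGroup y') (hM.TE ((⟨ψ', hψ'⟩ : autGroup y')⁻¹ * g) x) =
            hM.TE g x := by
          have h7 : hM.TE (⟨ψ', hψ'⟩ : autGroup y') (hM.TE ((⟨ψ', hψ'⟩ : autGroup y')⁻¹ * g) x) =
            (hM.TE (⟨ψ', hψ'⟩ : autGroup y') * hM.TE ((⟨ψ', hψ'⟩ : autGroup y')⁻¹ * g)) x := rfl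
          rw [h7, ← hM.TE_mul, mul_inv_cancel_left]
        rw [h6] at h5
        refine ⟨(⟨ψ', hψ'⟩ : autGroup y')⁻¹ * g, fun j hj => ?_, fun j hj => ?_⟩
        · by_cases hji : j = i
          · subst hji
            have h8 := h5.1
            rw [hg2 j hi, ← hTz] at h8
            have h9 := T.injective h8
            rw [← h9]
            exact hz
          · rw [← h5.2 j hji]
            exact hg1 j (Finset.mem_of_mem_insert_of_ne hj hji)
        · have hji : j ≠ i := fun h => hj (h ▸ Finset.mem_insert_self i s)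
          rw [← h5.2 j hji]
          exact hg2 j fun h => hj (Finset.mem_insert_of_mem h)
    obtain ⟨g, hg, -⟩ := key Finset.univ
    refine ⟨g, ?_⟩
    rw [← sum_emb (e := e) (hM.TE g x)]
    refine cone_sum _ _ fun i _ => ?_
    refine cone_ind (p := fun z => emb e i z ∈ cone F) (by rw [map_zero]; exact zero_mem_cone _)
      (fun a b ha hb => by rw [map_add]; exact cone_add ha hb)
      (fun t a ht ha => by rw [map_smul]; exact cone_smul ha ht) (fun a ha => ?_)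
      (hg i (Finset.mem_univ i))
    exact mem_cone_self (Finset.mem_biUnion.2 ⟨i, Finset.mem_univ i, Finset.mem_image_of_mem _ ha⟩)
  -- the group
  have hNa : ∀ g : autGroup y', ∀ x ∈ nefCone y' n' c' ∩ effCone y' c',
      hM.TE g x ∈ nefCone y' n' c' ∩ effCone y' c' := fun g x hx =>
    ⟨pres_nef hy' g.2 (hM.isPull g) hx.1, pres_eff hy' g.2 (hM.isPull g) hx.2⟩
  have hrpinv : ∀ (g : autGroup y') x, hM.TE g⁻¹ (hM.TE g x) = x := by
    intro g x
    have h1 : hM.TE g⁻¹ (hM.TE g x) = (hM.TE g⁻¹ * hM.TE g) x := rfl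
    have h2 : hM.TE 1 = 1 := map_one (MonoidHom.mk' hM.TE hM.TE_mul)
    rw [h1, ← hM.TE_mul, inv_mul_cancel, h2]
    rfl
  obtain ⟨pull, hpull⟩ : ∃ pull : autGroup y' → ((Fin ρ' → ℝ) ≃ₗ[ℝ] (Fin ρ' → ℝ)),
    ∀ ψ : autGroup y', pull ψ = hM.TE ψ⁻¹ := ⟨_, fun _ => rfl⟩
  have hFD : HasFD pull (nefCone y' n' c' ∩ effCone y' c') := by
    refine HasFD.of_cover (C := nefCone y' n' c') hsw
      (fun f g => by rw [hpull, hpull, hpull, ← hM.TE_mul, ← mul_inv_rev])
      (fun f x hx => ?_) (fun f x hx => ?_) (fun x hx => ?_) F hF (fun x hx => ?_)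
    · rw [hpull, hM.TE_apply]
      exact TR_int _ hx
    · rw [hpull]
      exact hNa _ x hx
    · obtain ⟨g, hg⟩ := hcov x hx
      have h1 : ∀ z ∈ cone F, hM.TE g⁻¹ z ∈ Cp (IntL ρ') (nefCone y' n' c' ∩ effCone y' c') := by
        intro z hz
        refine cone_ind (p := fun z => hM.TE g⁻¹ z ∈
          Cp (IntL ρ') (nefCone y' n' c' ∩ effCone y' c')) ?_ (fun a b ha hb => ?_)
          (fun t a ht ha => ?_) (fun a ha => ?_) hz
        · rw [map_zero]
          exact ⟨∅, by simp, zero_mem_cone _⟩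
        · rw [map_add]
          exact Cp_add' ha hb
        · rw [map_smul]
          exact Cp_smul' ha ht
        · refine ⟨{hM.TE g⁻¹ a}, fun b hb => ?_, mem_cone_self (Finset.mem_singleton_self _)⟩
          rw [Finset.mem_singleton] at hb
          rw [hb]
          refine ⟨?_, hNa _ a (hF a ha).2⟩
          rw [hM.TE_apply]
          exact TR_int _ (hF a ha).1
      have h2 := h1 _ hg
      rwa [hrpinv] at h2
    · obtain ⟨g, hg⟩ := hcov x (hsw.Nint hx)
      refine ⟨g⁻¹, ?_⟩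
      rw [hpull, inv_inv]
      exact hg
  obtain ⟨S₀, hS₀, hUS, hdisS⟩ := hFD
  have hset : ∀ T, (∃ ψ, IsAut ψ y' ∧ IsPullBack y' c' ψ T) ↔ ∃ f : autGroup y', T = pull f := by
    intro T
    constructor
    · rintro ⟨ψ, hψ, hT⟩
      refine ⟨(⟨ψ, hψ⟩ : autGroup y')⁻¹, ?_⟩
      rw [hpull, inv_inv]
      exact pull_ext hc' hT (hM.isPull ⟨ψ, hψ⟩)
    · rintro ⟨f, rfl⟩
      rw [hpull]
      exact ⟨_, (f⁻¹).2, hM.isPull f⁻¹⟩
  refine ⟨S₀, hS₀, ?_, fun T hT hT1 => ?_⟩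
  · rw [hUS]
    ext x
    simp only [Set.mem_iUnion]
    constructor
    · rintro ⟨f, hf⟩
      exact ⟨pull f, (hset _).2 ⟨f, rfl⟩, hf⟩
    · rintro ⟨T, hT, hx⟩
      obtain ⟨f, rfl⟩ := (hset T).1 hT
      exact ⟨f, hx⟩
  · obtain ⟨f, rfl⟩ := (hset T).1 hT
    exact hdisS f hT1

end

end Pool.Agent.P8H27.CP
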